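import Pool.Agent.Helper71.SD.Goals

/-!
Packet MIDPT for `MP_dcced1_gt`.
-/

namespace Pool.Agent.Helper71.SD.MIDPT

open Pool.Agent.Helper71.AHtpy SimpleGraph

theorem card_blk : ∀ a : Fin 3, ((Finset.univ : Finset E).filter fun j => blk j = a).card = 20 := by
  decide

theorem midpt : S_XC1 → S_MIDPT := by
  intro _ π w i e
  obtain ⟨a, ha⟩ : ∃ a : Fin 3, a ≠ blk (π.symm i) := exists_ne _
  set B : Finset E := Finset.univ.filter fun j => blk (π.symm j) = a with hB
  have hBmem : ∀ j, j ∈ B ↔ blk (π.symm j) = a := by intro j; simp [hB]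
  have hBcard : B.card = 20 := by
    rw [← card_blk a]
    apply Finset.card_bij (fun j _ => π.symm j)
    · intro j hj; simpa [hBmem] using hj
    · intro j _ k _ h; exact π.symm.injective h
    · intro k hk; exact ⟨π k, by simpa [hBmem] using hk, by simp⟩
  have hiB : i ∉ B := by rw [hBmem]; exact fun h => ha h.symm
  obtain ⟨D, hDB, hD⟩ := Finset.exists_subset_card_eq (s := B) (n := 10) (by omega)
  set W : Finset E := symmDiff (w ∩ B) D with hW
  have hWB : W ⊆ B := by
    intro j hj
    rw [hW, Finset.mem_symmDiff] at hj
    rcases hj with ⟨h, _⟩ | ⟨h, _⟩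
    · exact (Finset.mem_inter.mp h).2
    · exact hDB h
  have hWc : W.card ≤ 20 := hBcard ▸ Finset.card_le_card hWB
  have hCc : (Bᶜ).card = 40 := by
    rw [Finset.card_compl, hBcard]; simp
  -- choose the rest
  obtain ⟨R, hRC, hRcard, hiR⟩ : ∃ R : Finset E, R ⊆ Bᶜ ∧ R.card = 30 - W.card ∧
      decide (i ∈ R) = e := by
    cases e with
    | true =>
      obtain ⟨R, h1, h2, h3⟩ := Finset.exists_subsuperset_card_eq (s := {i}) (t := Bᶜ)
        (n := 30 - W.card) (by simpa using hiB) (by simp; omega) (by omega)
      exact ⟨R, h2, h3, by simpa using h1 (Finset.mem_singleton_self i)⟩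
    | false =>
      obtain ⟨R, h2, h3⟩ := Finset.exists_subset_card_eq (s := Bᶜ \ {i}) (n := 30 - W.card) (by
        have : (Bᶜ \ {i}).card = 39 := by
          rw [Finset.card_sdiff_of_subset (by simpa using hiB), hCc]; simp
        omega)
      refine ⟨R, h2.trans Finset.sdiff_subset, h3, ?_⟩
      rw [decide_eq_false_iff_not]
      intro h
      have := h2 h
      simp at this
  have hdisj : Disjoint W R := by
    rw [Finset.disjoint_left]
    intro j h1 h2
    exact (Finset.mem_compl.mp (hRC h2)) (hWB h1)
  set U : Finset E := W ∪ R with hU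
  have hUcard : U.card = 30 := by
    rw [hU, Finset.card_union_of_disjoint hdisj, hRcard]; omega
  have haff : aff π.toEmbedding w ((symmDiff U w).map π.symm.toEmbedding) = U := by
    unfold aff
    rw [Finset.map_map]
    have : (π.symm.toEmbedding.trans π.toEmbedding) = Function.Embedding.refl E := by
      ext x; simp
    rw [this, Finset.map_refl, symmDiff_comm U w, symmDiff_symmDiff_cancel_left]
  refine ⟨(symmDiff U w).map π.symm.toEmbedding, ?_, ?_, a, ?_⟩
  · rw [haff, hUcard]
  · rw [haff, ← hiR]
    have : i ∈ U ↔ i ∈ R := by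
      rw [hU, Finset.mem_union]
      constructor
      · rintro (h | h)
        · exact absurd (hWB h) hiB
        · exact h
      · exact Or.inr
    simp [this]
  · have hcnt : cnt a ((symmDiff U w).map π.symm.toEmbedding) = 10 := by
      rw [← hD]
      unfold cnt
      symm
      apply Finset.card_bij (fun j _ => π.symm j)
      · intro j hj
        have hjB := hDB hj
        have h2 := (hBmem j).mp hjB
        rw [Finset.mem_filter]
        refine ⟨?_, h2⟩
        rw [Finset.mem_map]
        refine ⟨j, ?_, rfl⟩
        rw [Finset.mem_symmDiff]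
        by_cases hw : j ∈ w
        · right
          refine ⟨hw, ?_⟩
          rw [hU, Finset.mem_union]
          rintro (h | h)
          · rw [hW, Finset.mem_symmDiff] at h
            rcases h with ⟨_, h⟩ | ⟨_, h⟩
            · exact h hj
            · exact h (Finset.mem_inter.mpr ⟨hw, hjB⟩)
          · exact (Finset.mem_compl.mp (hRC h)) hjB
        · left
          refine ⟨?_, hw⟩
          rw [hU, Finset.mem_union]
          left
          rw [hW, Finset.mem_symmDiff]
          exact Or.inr ⟨hj, fun h => hw (Finset.mem_inter.mp h).1⟩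
      · intro j _ k _ h; exact π.symm.injective h
      · intro k hk
        rw [Finset.mem_filter, Finset.mem_map] at hk
        obtain ⟨⟨j, hj, rfl⟩, hk⟩ := hk
        have hjB : j ∈ B := (hBmem j).mpr hk
        refine ⟨j, ?_, rfl⟩
        rw [Finset.mem_symmDiff] at hj
        rcases hj with ⟨h1, h2⟩ | ⟨h1, h2⟩
        · rw [hU, Finset.mem_union] at h1
          rcases h1 with h1 | h1
          · rw [hW, Finset.mem_symmDiff] at h1
            rcases h1 with ⟨h1, _⟩ | ⟨h1, _⟩
            · exact absurd (Finset.mem_inter.mp h1).1 h2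
            · exact h1
          · exact absurd hjB (Finset.mem_compl.mp (hRC h1))
        · by_contra hD'
          apply h2
          rw [hU, Finset.mem_union]
          left
          rw [hW, Finset.mem_symmDiff]
          exact Or.inl ⟨Finset.mem_inter.mpr ⟨h1, hjB⟩, hD'⟩
    omega

end Pool.Agent.Helper71.SD.MIDPT
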